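import Mathlib

set_option autoImplicit false

/-!
A regular graph with two disjoint maximal cliques such that any two maximal independent sets meet.

The graph is a blow-up (every vertex replaced by an independent set) of a graph on 40 vertices: a central
complete graph on `k 0, .., k 3` and six gadgets, one for each two-element subset `A j` of `{0, .., 3}`; the
gadget is a triangle `c j 0, c j 1, c j 2` with a further vertex `q j i` for each `i`, joined to `c j i` and
to the two central vertices in `A j`.  The weights 10 (for `k`), 19 (for `c`) and 1 (for `q`) make the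
blow-up regular of degree 39.  Two maximal independent sets contain vertices of at most two central
classes; the gadget of the complementary pair is not touched from the centre, and in it each of the two
sets contains at least two of the three vertices `q j i`.
-/

namespace Pool.Agent.Results.MP_7a760c_co.IntersectingCocliques

/-- the forty vertices of the base graph -/
inductive B
  | k (a : Fin 4)
  | c (j : Fin 6) (i : Fin 3)
  | q (j : Fin 6) (i : Fin 3)
  deriving DecidableEq, Fintype

/-- the six pairs -/
def A : Fin 6 → Fin 4 → Bool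
  | 0, a => a == 0 || a == 1
  | 1, a => a == 0 || a == 2
  | 2, a => a == 0 || a == 3
  | 3, a => a == 1 || a == 2
  | 4, a => a == 1 || a == 3
  | 5, a => a == 2 || a == 3

/-- adjacency in the base graph -/
def adj : B → B → Bool
  | .k a, .k b => a != b
  | .c j i, .c j' i' => j == j' && i != i'
  | .c j i, .q j' i' => j == j' && i == i'
  | .q j i, .c j' i' => j == j' && i == i'
  | .q j _, .k a => A j a
  | .k a, .q j _ => A j a
  | _, _ => false

/-- the sizes of the classes -/
def w : B → ℕ
  | .k _ => 10
  | .c _ _ => 19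
  | .q _ _ => 1

lemma adj_symm : ∀ x y : B, adj x y = adj y x := by decide +kernel

lemma adj_irrefl : ∀ x : B, adj x x = false := by decide +kernel

lemma weights : ∀ x : B, ∑ y : B, (if adj x y then w y else 0) = 39 := by decide +kernel

lemma avoid : ∀ a b : Fin 4, ∃ j : Fin 6, A j a = false ∧ A j b = false := by decide

/-- the vertices of the blow-up -/
abbrev V : Type := Σ b : B, Fin (w b)

/-- the blow-up -/
def G : SimpleGraph V where
  Adj x y := adj x.1 y.1 = true
  symm := by
    constructor
    intro x y h
    rw [adj_symm]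
    exact h
  loopless := by
    constructor
    intro x h
    rw [adj_irrefl] at h
    exact Bool.noConfusion h

instance : DecidableRel G.Adj := fun x y => inferInstanceAs (Decidable (adj x.1 y.1 = true))

lemma regular : G.IsRegularOfDegree 39 := by
  intro v
  rw [← SimpleGraph.card_neighborFinset_eq_degree]
  have h : G.neighborFinset v
      = (Finset.univ.filter (fun y : B => adj v.1 y = true)).sigma
          (fun b => (Finset.univ : Finset (Fin (w b)))) := by
    ext x
    simp only [SimpleGraph.mem_neighborFinset, Finset.mem_sigma, Finset.mem_filter,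
      Finset.mem_univ, true_and, and_true]
    exact Iff.rfl
  rw [h, Finset.card_sigma]
  simp only [Finset.card_univ, Fintype.card_fin]
  rw [Finset.sum_filter]
  exact weights v.1

/-- a maximal independent set contains a neighbour of every vertex outside it -/
lemma dominate {I : Set V} (hI : Maximal (fun s => G.IsIndepSet s) I) {v : V} (hv : v ∉ I) :
    ∃ u ∈ I, G.Adj u v := by
  by_contra hcon
  push Not at hcon
  have h1 : G.IsIndepSet (insert v I) := by
    intro x hx y hy hxy
    rcases hx with hx | hx <;> rcases hy with hy | hy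
    · exact absurd (hx.trans hy.symm) hxy
    · subst hx
      exact fun h => hcon y hy h.symm
    · subst hy
      exact hcon x hx
    · exact hI.1 hx hy hxy
  exact hv (hI.2 h1 (Set.subset_insert v I) (Set.mem_insert v I))

/-- the vertex `q j i` of the blow-up -/
def qv (j : Fin 6) (i : Fin 3) : V := ⟨B.q j i, ⟨0, Nat.one_pos⟩⟩

lemma indep {I : Set V} (hI : G.IsIndepSet I) {x y : V} (hx : x ∈ I) (hy : y ∈ I)
    (h : adj x.1 y.1 = true) : False := by
  have hne : x ≠ y := by
    intro h2
    subst h2
    rw [adj_irrefl] at h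
    exact Bool.noConfusion h
  exact hI hx hy hne h

/-- some central vertex `a` such that every central element of `I` is a copy of `a` -/
lemma central {I : Set V} (hI : G.IsIndepSet I) :
    ∃ a : Fin 4, ∀ x ∈ I, ∀ b : Fin 4, x.1 = B.k b → b = a := by
  by_cases h : ∃ x ∈ I, ∃ a : Fin 4, x.1 = B.k a
  · obtain ⟨x, hx, a, ha⟩ := h
    refine ⟨a, ?_⟩
    intro y hy b hb
    by_contra hne
    refine indep hI hy hx ?_
    rw [ha, hb]
    simp [adj, hne]
  · refine ⟨0, ?_⟩
    intro x hx b hb
    exact absurd ⟨x, hx, b, hb⟩ h

lemma nbr_q : ∀ (x : B) (j : Fin 6) (i : Fin 3), adj x (B.q j i) = true →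
    x = B.c j i ∨ ∃ a : Fin 4, x = B.k a ∧ A j a = true := by decide +kernel

/-- in a gadget not touched from the centre a maximal independent set misses at most one `q j i` -/
lemma miss {I : Set V} (hI : Maximal (fun s => G.IsIndepSet s) I) {j : Fin 6}
    (hj : ∀ x ∈ I, ∀ b : Fin 4, x.1 = B.k b → A j b = false) {i i' : Fin 3} (hne : i ≠ i') :
    qv j i ∈ I ∨ qv j i' ∈ I := by
  by_contra hcon
  push Not at hcon
  obtain ⟨h1, h2⟩ := hcon
  have key : ∀ l : Fin 3, qv j l ∉ I → ∃ u ∈ I, u.1 = B.c j l := by
    intro l hl
    obtain ⟨u, hu, hadj⟩ := dominate hI hl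
    rcases nbr_q u.1 j l hadj with h | ⟨a, ha, hA⟩
    · exact ⟨u, hu, h⟩
    · have := hj u hu a ha
      rw [hA] at this
      exact Bool.noConfusion this
  obtain ⟨u, hu, hu1⟩ := key i h1
  obtain ⟨v, hv, hv1⟩ := key i' h2
  refine indep hI.1 hu hv ?_
  rw [hu1, hv1]
  simp [adj, hne]

lemma meet {I J : Set V} (hI : Maximal (fun s => G.IsIndepSet s) I)
    (hJ : Maximal (fun s => G.IsIndepSet s) J) : (I ∩ J).Nonempty := by
  obtain ⟨a, ha⟩ := central hI.1
  obtain ⟨b, hb⟩ := central hJ.1
  obtain ⟨j, hja, hjb⟩ := avoid a b
  have hjI : ∀ x ∈ I, ∀ c : Fin 4, x.1 = B.k c → A j c = false := by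
    intro x hx c hc
    rw [ha x hx c hc]
    exact hja
  have hjJ : ∀ x ∈ J, ∀ c : Fin 4, x.1 = B.k c → A j c = false := by
    intro x hx c hc
    rw [hb x hx c hc]
    exact hjb
  have i01 := miss hI hjI (i := 0) (i' := 1) (by decide)
  have i02 := miss hI hjI (i := 0) (i' := 2) (by decide)
  have i12 := miss hI hjI (i := 1) (i' := 2) (by decide)
  have j01 := miss hJ hjJ (i := 0) (i' := 1) (by decide)
  have j02 := miss hJ hjJ (i := 0) (i' := 2) (by decide)
  have j12 := miss hJ hjJ (i := 1) (i' := 2) (by decide)
  by_contra hcon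
  rw [Set.not_nonempty_iff_eq_empty] at hcon
  have h : ∀ l : Fin 3, ¬ (qv j l ∈ I ∧ qv j l ∈ J) := by
    intro l hl
    have : qv j l ∈ I ∩ J := hl
    rw [hcon] at this
    exact this
  have h0 := h 0
  have h1 := h 1
  have h2 := h 2
  tauto

/-- the triangle formed by the `s`-th copies of `c 0 0`, `c 0 1`, `c 0 2` -/
def tri (s : Fin 19) : Set V := {x | ∃ i : Fin 3, x = ⟨B.c 0 i, s⟩}

lemma no_common : ∀ x : B, adj x (B.c 0 0) = true → adj x (B.c 0 1) = true →
    adj x (B.c 0 2) = true → False := by decide +kernel

lemma tri_max (s : Fin 19) : Maximal (fun t => G.IsClique t) (tri s) := by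
  refine ⟨?_, ?_⟩
  · rintro x ⟨i, rfl⟩ y ⟨i', rfl⟩ hne
    have hii : i ≠ i' := by
      intro h
      subst h
      exact hne rfl
    show adj (B.c 0 i) (B.c 0 i') = true
    simp [adj, hii]
  · intro T hT hsub x hx
    by_contra hx'
    have h : ∀ i : Fin 3, adj x.1 (B.c 0 i) = true := by
      intro i
      have hm : (⟨B.c 0 i, s⟩ : V) ∈ T := hsub ⟨i, rfl⟩
      have hne : x ≠ ⟨B.c 0 i, s⟩ := by
        intro h
        exact hx' ⟨i, h⟩
      exact hT hx hm hne
    exact no_common x.1 (h 0) (h 1) (h 2)

/-- There is a finite graph, regular of degree `39`, which has two disjoint maximal cliques, while any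
two maximal cliques of its complement have a common vertex. -/
theorem result : ∃ (V : Type) (_ : Fintype V) (_ : DecidableEq V) (G : SimpleGraph V)
    (_ : DecidableRel G.Adj),
    G.IsRegularOfDegree 39 ∧
    (∃ C D : Set V, Maximal (fun s => G.IsClique s) C ∧ Maximal (fun s => G.IsClique s) D ∧
      Disjoint C D) ∧
    ∀ I J : Set V, Maximal (fun s => Gᶜ.IsClique s) I → Maximal (fun s => Gᶜ.IsClique s) J →
      (I ∩ J).Nonempty := by
  refine ⟨V, inferInstance, inferInstance, G, inferInstance, regular, ?_, ?_⟩
  · refine ⟨tri 0, tri 1, tri_max 0, tri_max 1, ?_⟩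
    rw [Set.disjoint_left]
    rintro x ⟨i, rfl⟩ ⟨i', h⟩
    have h1 : B.c 0 i = B.c 0 i' := congrArg Sigma.fst h
    have h2 : i = i' := by
      injection h1
    subst h2
    have h3 : (0 : Fin 19) = 1 := eq_of_heq (Sigma.mk.inj_iff.mp h).2
    exact absurd h3 (by decide)
  · intro I J hI hJ
    simp only [SimpleGraph.isClique_compl] at hI hJ
    exact meet hI hJ

end Pool.Agent.Results.MP_7a760c_co.IntersectingCocliques
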